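import Pool.Agent.H10.CE.Targets

set_option autoImplicit false

open Finset Matrix

namespace Pool.Agent.H68.CE

open Pool.Agent.H10.CE
open scoped MatrixOrder ComplexOrder Matrix.Norms.L2Operator

theorem star_dot_self {n : ℕ} (x : Fin n → ℂ) : (star x ⬝ᵥ x).re = ∑ i, ‖x i‖ ^ 2 := by
  rw [dotProduct, Complex.re_sum]
  refine Finset.sum_congr rfl fun i _ => ?_
  rw [Pi.star_apply, RCLike.star_def, mul_comm, Complex.mul_conj, Complex.ofReal_re,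
    Complex.normSq_eq_norm_sq]

theorem cs {n : ℕ} (x y : Fin n → ℂ) :
    ‖x ⬝ᵥ y‖ ^ 2 ≤ (∑ i, ‖x i‖ ^ 2) * ∑ i, ‖y i‖ ^ 2 := by
  have h1 : ‖x ⬝ᵥ y‖ ≤ ∑ i, ‖x i‖ * ‖y i‖ := by
    refine (norm_sum_le _ _).trans ?_
    refine (Finset.sum_le_sum fun i _ => ?_)
    rw [norm_mul]
  calc ‖x ⬝ᵥ y‖ ^ 2 ≤ (∑ i, ‖x i‖ * ‖y i‖) ^ 2 := pow_le_pow_left₀ (norm_nonneg _) h1 2
    _ ≤ _ := Finset.sum_mul_sq_le_sq_mul_sq _ _ _

theorem quad_sq {n : ℕ} (H : Matrix (Fin n) (Fin n) ℂ) (hH : H.IsHermitian) (v : Fin n → ℂ) :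
    (star v ⬝ᵥ (H ^ 2).mulVec v).re = ∑ i, ‖(H.mulVec v) i‖ ^ 2 := by
  rw [← star_dot_self, star_mulVec, hH.eq, sq, ← Matrix.mulVec_mulVec, dotProduct_mulVec]

theorem base {n : ℕ} (H : Matrix (Fin n) (Fin n) ℂ) (G : Fin n → ℂ) (hH : H.PosSemidef) :
    (star G ⬝ᵥ H.mulVec G).re ≤ (∑ j, ‖G j‖ ^ 2) * (H.trace).re := by
  obtain ⟨C, rfl⟩ := CStarAlgebra.nonneg_iff_eq_star_mul_self.mp hH.nonneg
  rw [star_eq_conjTranspose]
  have h1 : star G ⬝ᵥ (Cᴴ * C).mulVec G = star (C.mulVec G) ⬝ᵥ C.mulVec G := by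
    rw [star_mulVec, ← Matrix.mulVec_mulVec, dotProduct_mulVec]
  rw [h1, star_dot_self]
  have h2 : ((Cᴴ * C).trace).re = ∑ i, ∑ j, ‖C i j‖ ^ 2 := by
    rw [Matrix.trace, Complex.re_sum, Finset.sum_comm]
    refine Finset.sum_congr rfl fun j _ => ?_
    rw [Matrix.diag_apply, Matrix.mul_apply, Complex.re_sum]
    refine Finset.sum_congr rfl fun i _ => ?_
    rw [Matrix.conjTranspose_apply, RCLike.star_def, mul_comm, Complex.mul_conj,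
      Complex.ofReal_re, Complex.normSq_eq_norm_sq]
  rw [h2, Finset.mul_sum]
  refine Finset.sum_le_sum fun i _ => ?_
  have h3 := cs (fun j => C i j) G
  rw [mul_comm] at h3
  exact h3

theorem pf_LOG : T_LOG := by
  intro J r
  induction r with
  | zero =>
    intro H G hH hp
    rw [pow_zero, pow_one, pow_one, pow_one]
    refine base H G (PosSemidef.of_dotProduct_mulVec_nonneg hH fun x => ?_)
    rw [Complex.nonneg_iff]
    exact ⟨hp x, (hH.im_star_dotProduct_mulVec_self x).symm⟩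
  | succ r ih =>
    intro H G hH hp
    have hH2 : (H ^ 2).IsHermitian := hH.pow 2
    have hp2 : ∀ v : Fin J → ℂ, 0 ≤ (star v ⬝ᵥ (H ^ 2).mulVec v).re := fun v => by
      rw [quad_sq H hH v]
      positivity
    have h1 : (star G ⬝ᵥ H.mulVec G).re ^ 2 ≤
        (∑ j, ‖G j‖ ^ 2) * (star G ⬝ᵥ (H ^ 2).mulVec G).re := by
      rw [quad_sq H hH G]
      have h2 := cs (star G) (H.mulVec G)
      have h3 : ∑ i, ‖(star G) i‖ ^ 2 = ∑ j, ‖G j‖ ^ 2 := by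
        refine Finset.sum_congr rfl fun i _ => ?_
        rw [Pi.star_apply, norm_star]
      rw [h3] at h2
      refine le_trans ?_ h2
      rw [← sq_abs]
      exact pow_le_pow_left₀ (abs_nonneg _) (Complex.abs_re_le_norm _) 2
    have h2 := ih (H ^ 2) G hH2 hp2
    have hN : 0 ≤ ∑ j, ‖G j‖ ^ 2 := by positivity
    have e1 : (2 : ℕ) ^ (r + 1) = 2 * 2 ^ r := by rw [pow_succ]; ring
    have e2 : H ^ (2 ^ (r + 1)) = (H ^ 2) ^ (2 ^ r) := by rw [e1, pow_mul]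
    rw [e2, e1, pow_mul, pow_mul]
    calc ((star G ⬝ᵥ H.mulVec G).re ^ 2) ^ 2 ^ r
        ≤ ((∑ j, ‖G j‖ ^ 2) * (star G ⬝ᵥ (H ^ 2).mulVec G).re) ^ 2 ^ r :=
          pow_le_pow_left₀ (sq_nonneg _) h1 _
      _ = (∑ j, ‖G j‖ ^ 2) ^ 2 ^ r * (star G ⬝ᵥ (H ^ 2).mulVec G).re ^ 2 ^ r := mul_pow _ _ _
      _ ≤ (∑ j, ‖G j‖ ^ 2) ^ 2 ^ r * ((∑ j, ‖G j‖ ^ 2) ^ 2 ^ r *
            (((H ^ 2) ^ 2 ^ r).trace).re) := mul_le_mul_of_nonneg_left h2 (by positivity)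
      _ = _ := by rw [← mul_assoc, ← mul_pow, ← sq]

end Pool.Agent.H68.CE
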