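import Pool.Agent.H99.CE.Targets

/-!
# The ends of the skeleton (row EST of the board crx)
-/

set_option autoImplicit false

open MeasureTheory ProbabilityTheory Filter Topology
open scoped ENNReal
open Pool.Agent.H95 Pool.Agent.H95.Cop Pool.Agent.H96.Cop Pool.Agent.H99.CE

namespace Pool.Agent.H68.CE

theorem zs (s : ℝ) (h0 : 0 < s) (N : ℕ) :
    ∑ i ∈ Finset.range N, ((i : ℝ) + 1) ^ (-(1 + s)) ≤ 1 + 1 / s := by
  cases N with
  | zero =>
    rw [Finset.sum_range_zero]
    positivity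
  | succ N =>
    rw [Finset.sum_range_succ']
    have h1 : (((0 : ℕ) : ℝ) + 1) ^ (-(1 + s)) = 1 := by
      rw [Nat.cast_zero, zero_add, Real.one_rpow]
    rw [h1, add_comm]
    apply add_le_add_right
    have h4 : AntitoneOn (fun x : ℝ => x ^ (-(1 + s))) (Set.Icc (1 : ℝ) (1 + N)) := by
      intro x hx y hy hxy
      exact Real.rpow_le_rpow_of_nonpos (by linarith [hx.1]) hxy (by linarith)
    have h5 := h4.sum_le_integral
    have h6 : ∫ x in (1 : ℝ)..(1 + N), x ^ (-(1 + s)) = (1 - (1 + (N : ℝ)) ^ (-s)) / s := by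
      rw [integral_rpow]
      · rw [show -(1 + s) + 1 = -s by ring, Real.one_rpow]
        field_simp
        ring
      · right
        refine ⟨by linarith, ?_⟩
        rw [Set.uIcc_of_le (by linarith [Nat.cast_nonneg (α := ℝ) N])]
        intro h
        linarith [h.1]
    rw [h6] at h5
    have h7 : ∑ i ∈ Finset.range N, (((i + 1 : ℕ) : ℝ) + 1) ^ (-(1 + s)) =
        ∑ i ∈ Finset.range N, ((1 : ℝ) + ((i + 1 : ℕ) : ℝ)) ^ (-(1 + s)) := by
      refine Finset.sum_congr rfl fun i _ => ?_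
      rw [add_comm]
    rw [h7]
    refine h5.trans ?_
    have h8 : 0 ≤ (1 + (N : ℝ)) ^ (-s) := by positivity
    exact div_le_div_of_nonneg_right (by linarith) h0.le

/-- the real coefficient of a link -/
noncomputable def gr (α P η : ℝ) (M D : ℕ) : ℝ := α ^ 2 * P * wq α D * (if D ≤ M then 1 else η)

theorem wq_nonneg (α : ℝ) (D : ℕ) : 0 ≤ wq α D := Real.rpow_nonneg (Nat.cast_nonneg _) _

theorem gr_nonneg {α P η : ℝ} (hP : 0 ≤ P) (hη : 0 ≤ η) (M D : ℕ) : 0 ≤ gr α P η M D := by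
  unfold gr
  refine mul_nonneg (mul_nonneg (by positivity) (wq_nonneg α D)) ?_
  split_ifs
  · exact zero_le_one
  · exact hη

/-- the sum of the links to the big box `T` -/
noncomputable def SR (α P η : ℝ) (M : ℕ) (T : Finset ℕ) (L q : ℕ) : ℝ :=
  ∑ D ∈ (Finset.Icc 1 L).filter (fun D => q + D ∈ T), gr α P η M D

theorem SR_nonneg {α P η : ℝ} (hP : 0 ≤ P) (hη : 0 ≤ η) (M : ℕ) (T : Finset ℕ) (L q : ℕ) :
    0 ≤ SR α P η M T L q := Finset.sum_nonneg fun D _ => gr_nonneg hP hη M D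

theorem eb_eq {α t η P : ℝ} (ht : 0 < t) (hη : 0 ≤ η) (hP : 0 ≤ P) (M : ℕ) (T : Finset ℕ)
    (L q : ℕ) : eb (ENNReal.ofReal (α ^ 2 * P * t)) (Kd α t η M) T L q =
      (if q ∈ T then 1 else 0) + ENNReal.ofReal (SR α P η M T L q) := by
  unfold eb
  congr 1
  rw [← Finset.sum_filter, Finset.mul_sum]
  unfold SR
  rw [ENNReal.ofReal_sum_of_nonneg fun D _ => gr_nonneg hP hη M D]
  refine Finset.sum_congr rfl fun D _ => ?_
  unfold Kd gr
  rw [← ENNReal.ofReal_mul (by positivity)]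
  congr 1
  field_simp

theorem SR_le {α η P : ℝ} (hα : 0 < α) (hα2 : α ≤ 1 / 2) (hη : 0 ≤ η) (hη1 : η ≤ 1)
    (hP : 0 ≤ P) (M : ℕ) (T : Finset ℕ) (L q : ℕ) : SR α P η M T L q ≤ 2 * α * P := by
  have h1 : SR α P η M T L q ≤ ∑ D ∈ Finset.Icc 1 L, gr α P η M D := by
    unfold SR
    exact Finset.sum_le_sum_of_subset_of_nonneg (Finset.filter_subset _ _)
      fun D _ _ => gr_nonneg hP hη M D
  have h2 : ∑ D ∈ Finset.Icc 1 L, gr α P η M D ≤ α ^ 2 * P * ∑ D ∈ Finset.Icc 1 L, wq α D := by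
    rw [Finset.mul_sum]
    refine Finset.sum_le_sum fun D _ => ?_
    unfold gr
    refine mul_le_of_le_one_right (mul_nonneg (by positivity) (wq_nonneg α D)) ?_
    split_ifs
    · exact le_rfl
    · exact hη1
  have h3 : ∑ D ∈ Finset.Icc 1 L, wq α D ≤ 2 + 1 / α := by
    have h4 : ∑ D ∈ Finset.Icc 1 L, wq α D = ∑ i ∈ Finset.range L, wq α (i + 1) := by
      rw [Finset.range_eq_Ico, Finset.sum_Ico_add' (fun D => wq α D) 0 L 1]
      rfl
    rw [h4]
    cases L with
    | zero =>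
      rw [Finset.sum_range_zero]
      positivity
    | succ L =>
      rw [Finset.sum_range_succ']
      have h5 : wq α (0 + 1) = 1 := by
        unfold wq
        simp
      have h6 : ∑ i ∈ Finset.range L, wq α (i + 1 + 1) =
          ∑ i ∈ Finset.range L, ((i : ℝ) + 1) ^ (-(1 + α)) := by
        refine Finset.sum_congr rfl fun i _ => ?_
        unfold wq
        rw [Nat.add_sub_cancel, max_eq_left (by omega)]
        push_cast
        rfl
      rw [h5, h6]
      have := zs α hα L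
      linarith
  have h7 : α ^ 2 * P * (2 + 1 / α) ≤ 2 * α * P := by
    have h8 : α ^ 2 * P * (2 + 1 / α) = α * P * (2 * α + 1) := by
      field_simp
    rw [h8]
    have h9 : 0 ≤ α * P := by positivity
    nlinarith
  calc SR α P η M T L q ≤ α ^ 2 * P * ∑ D ∈ Finset.Icc 1 L, wq α D := h1.trans h2
    _ ≤ α ^ 2 * P * (2 + 1 / α) := mul_le_mul_of_nonneg_left h3 (by positivity)
    _ ≤ _ := h7

theorem SR_far {α η P : ℝ} (hα : 0 < α) (hη : 0 ≤ η) (hP : 0 ≤ P) {M : ℕ} (hM : 1 ≤ M)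
    (q0 m L q : ℕ) (hm : 1 ≤ m) (hq : q < (q0 + 1) * M) :
    SR α P η M (TT M (q0 + 1 + m)) L q ≤ α ^ 2 * P * η * (m : ℝ) ^ (-(1 + α)) := by
  have hm0 : (0 : ℝ) < m := by exact_mod_cast hm
  have hM0 : (0 : ℝ) < M := by exact_mod_cast hM
  have hM1 : (1 : ℝ) ≤ M := by exact_mod_cast hM
  have h1 : ∀ D ∈ (Finset.Icc 1 L).filter (fun D => q + D ∈ TT M (q0 + 1 + m)),
      gr α P η M D ≤ α ^ 2 * P * η * ((m : ℝ) * M) ^ (-(1 + α)) := by
    intro D hD
    have h2 := (Finset.mem_filter.1 hD).2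
    unfold TT at h2
    have h3 := (Finset.mem_Ico.1 h2).1
    have h4 : (q0 + 1 + m) * M = (q0 + 1) * M + m * M := by ring
    have h5 : m * M < D := by omega
    have h6 : M ≤ m * M := Nat.le_mul_of_pos_left M hm
    unfold gr wq
    rw [if_neg (by omega), max_eq_left (by omega)]
    have h7 : ((D - 1 : ℕ) : ℝ) ^ (-(1 + α)) ≤ ((m : ℝ) * M) ^ (-(1 + α)) := by
      apply Real.rpow_le_rpow_of_nonpos (by positivity) _ (by linarith)
      have h8 : m * M ≤ D - 1 := by omega
      exact_mod_cast h8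
    calc α ^ 2 * P * ((D - 1 : ℕ) : ℝ) ^ (-(1 + α)) * η =
          α ^ 2 * P * η * ((D - 1 : ℕ) : ℝ) ^ (-(1 + α)) := by ring
      _ ≤ _ := mul_le_mul_of_nonneg_left h7 (by positivity)
  have hcard : ((Finset.Icc 1 L).filter (fun D => q + D ∈ TT M (q0 + 1 + m))).card ≤ M := by
    have h2 : ((Finset.Icc 1 L).filter (fun D => q + D ∈ TT M (q0 + 1 + m))).card ≤
        (TT M (q0 + 1 + m)).card := by
      apply Finset.card_le_card_of_injOn (fun D => q + D)
      · intro D hD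
        exact (Finset.mem_filter.1 hD).2
      · intro D _ D' _ h
        exact Nat.add_left_cancel h
    have h3 : (TT M (q0 + 1 + m)).card = M := by
      unfold TT
      rw [Nat.card_Ico, Nat.add_mul (q0 + 1 + m) 1 M, Nat.one_mul, Nat.add_sub_cancel_left]
    rwa [h3] at h2
  have hb0 : 0 ≤ α ^ 2 * P * η * ((m : ℝ) * M) ^ (-(1 + α)) := by positivity
  have h2 : SR α P η M (TT M (q0 + 1 + m)) L q ≤
      (M : ℝ) * (α ^ 2 * P * η * ((m : ℝ) * M) ^ (-(1 + α))) := by
    unfold SR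
    refine (Finset.sum_le_card_nsmul _ _ _ h1).trans ?_
    rw [nsmul_eq_mul]
    exact mul_le_mul_of_nonneg_right (by exact_mod_cast hcard) hb0
  refine h2.trans ?_
  have h3 : (M : ℝ) * (α ^ 2 * P * η * ((m : ℝ) * M) ^ (-(1 + α))) =
      α ^ 2 * P * η * (m : ℝ) ^ (-(1 + α)) * (M : ℝ) ^ (-α) := by
    rw [Real.mul_rpow hm0.le hM0.le]
    have h4 : (M : ℝ) ^ (-α) = (M : ℝ) * (M : ℝ) ^ (-(1 + α)) := by
      have h5 := Real.rpow_add hM0 1 (-(1 + α))
      rw [Real.rpow_one] at h5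
      rw [← h5]
      congr 1
      ring
    rw [h4]
    ring
  rw [h3]
  refine mul_le_of_le_one_right (by positivity) ?_
  exact Real.rpow_le_one_of_one_le_of_nonpos hM1 (by linarith)

theorem mx_le {θ : ℝ} (h0 : 0 < θ) (h1 : θ < 1) {y : ℝ≥0∞} {r : ℝ} (hr : 0 ≤ r) (hr1 : r ≤ 1)
    (hy : y ≤ ENNReal.ofReal r) : mx θ y ≤ ENNReal.ofReal (r ^ θ) := by
  unfold mx
  refine max_le (hy.trans ?_) ?_
  · apply ENNReal.ofReal_le_ofReal
    exact Real.self_le_rpow_of_le_one hr hr1 h1.le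
  · rw [← ENNReal.ofReal_rpow_of_nonneg hr h0.le]
    exact ENNReal.rpow_le_rpow hy h0.le

theorem mx_le' {θ : ℝ} (h0 : 0 < θ) (h1 : θ < 1) {y : ℝ≥0∞} {r : ℝ} (hr1 : 1 ≤ r)
    (hy : y ≤ ENNReal.ofReal r) : mx θ y ≤ ENNReal.ofReal r := by
  unfold mx
  refine max_le hy ?_
  calc y ^ θ ≤ (ENNReal.ofReal r) ^ θ := ENNReal.rpow_le_rpow hy h0.le
    _ = ENNReal.ofReal (r ^ θ) := ENNReal.ofReal_rpow_of_nonneg (by linarith) h0.le
    _ ≤ ENNReal.ofReal r := ENNReal.ofReal_le_ofReal (by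
        calc r ^ θ ≤ r ^ (1 : ℝ) := Real.rpow_le_rpow_of_exponent_le hr1 h1.le
          _ = r := Real.rpow_one r)

theorem pf_EST : T_EST := by
  intro α t θ s η P M J q hα hα2 ht hθ0 hθ1 hs hs0 hη hη1 hP hP1 hM
  obtain ⟨q0, hq1, hq2⟩ : ∃ q0 : ℕ, q0 * M ≤ q ∧ q < (q0 + 1) * M := by
    refine ⟨q / M, Nat.div_mul_le_self q M, ?_⟩
    have h := Nat.lt_div_mul_add (a := q) (b := M) (by omega)
    have h' : (q / M + 1) * M = q / M * M + M := by ring
    rw [h']
    exact h
  set C := (α ^ 2 * P * η) ^ θ with hC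
  have hC0 : 0 ≤ C := Real.rpow_nonneg (by positivity) θ
  set k1 := 2 * α * P with hk1
  have hk0 : 0 ≤ k1 := by positivity
  let B : ℕ → ℝ := fun j => if j < q0 then 0 else if j = q0 then 1 + k1 else
    if j = q0 + 1 then k1 ^ θ else C * ((j - q0 - 1 : ℕ) : ℝ) ^ (-(1 + s))
  have hB0 : ∀ j, 0 ≤ B j := by
    intro j
    simp only [B]
    split_ifs
    · exact le_rfl
    · positivity
    · exact Real.rpow_nonneg hk0 θ
    · exact mul_nonneg hC0 (Real.rpow_nonneg (Nat.cast_nonneg _) _)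
  have hBq : B q0 = 1 + k1 := by simp [B]
  have hBq1 : B (q0 + 1) = k1 ^ θ := by simp [B]
  have hterm : ∀ j, mx θ (eb (ENNReal.ofReal (α ^ 2 * P * t)) (Kd α t η M) (TT M j) (J * M) q) ≤
      ENNReal.ofReal (B j) := by
    intro j
    rw [eb_eq ht hη hP]
    rcases lt_trichotomy j q0 with hj | hj | hj
    · have h1 : (j + 1) * M ≤ q0 * M := Nat.mul_le_mul_right M hj
      have h2 : ¬ q ∈ TT M j := by
        unfold TT
        rw [Finset.mem_Ico]
        omega
      have h3 : SR α P η M (TT M j) (J * M) q = 0 := by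
        unfold SR
        apply Finset.sum_eq_zero
        intro D hD
        have h4 := (Finset.mem_filter.1 hD).2
        unfold TT at h4
        rw [Finset.mem_Ico] at h4
        omega
      rw [if_neg h2, h3]
      simp only [B]
      rw [if_pos hj, ENNReal.ofReal_zero, add_zero]
      unfold mx
      rw [ENNReal.zero_rpow_of_pos hθ0, max_self]
    · rw [hj, hBq]
      apply mx_le' hθ0 hθ1 (by linarith)
      rw [ENNReal.ofReal_add zero_le_one hk0, ENNReal.ofReal_one]
      refine add_le_add ?_ (ENNReal.ofReal_le_ofReal (SR_le hα hα2 hη hη1 hP M _ _ q))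
      split_ifs
      · exact le_rfl
      · exact zero_le_one
    · have h1 : (q0 + 1) * M ≤ j * M := Nat.mul_le_mul_right M hj
      have h2 : ¬ q ∈ TT M j := by
        unfold TT
        rw [Finset.mem_Ico]
        omega
      rw [if_neg h2, zero_add]
      simp only [B]
      rw [if_neg (by omega), if_neg (by omega)]
      by_cases hj1 : j = q0 + 1
      · rw [if_pos hj1]
        exact mx_le hθ0 hθ1 hk0 hP1
          (ENNReal.ofReal_le_ofReal (SR_le hα hα2 hη hη1 hP M _ _ q))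
      · rw [if_neg hj1]
        obtain ⟨m, rfl⟩ : ∃ m, j = q0 + 1 + m := ⟨j - (q0 + 1), by omega⟩
        have hm : 1 ≤ m := by omega
        have hm1 : (1 : ℝ) ≤ m := by exact_mod_cast hm
        have h3 : q0 + 1 + m - q0 - 1 = m := by omega
        rw [h3]
        have h4 : α ^ 2 * P * η * (m : ℝ) ^ (-(1 + α)) ≤ 1 := by
          have h5 : (m : ℝ) ^ (-(1 + α)) ≤ 1 :=
            Real.rpow_le_one_of_one_le_of_nonpos hm1 (by linarith)
          have h6 : α ^ 2 * P ≤ 1 := by nlinarith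
          have h7 : 0 ≤ α ^ 2 * P := by positivity
          have h8 : 0 ≤ (m : ℝ) ^ (-(1 + α)) := by positivity
          exact mul_le_one₀ (mul_le_one₀ h6 hη hη1) h8 h5
        have h9 := mx_le hθ0 hθ1 (by positivity) h4
          (ENNReal.ofReal_le_ofReal (SR_far hα hη hP hM q0 m (J * M) q hm hq2))
        refine h9.trans (le_of_eq ?_)
        congr 1
        rw [Real.mul_rpow (by positivity) (by positivity), ← Real.rpow_mul (by positivity)]
        congr 2
        rw [← hs]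
        ring
  have hsum : ∑ j ∈ Finset.range J, B j ≤ 1 + k1 + k1 ^ θ + C * (1 + 1 / s) := by
    have h1 : ∑ j ∈ Finset.range J, B j ≤ ∑ j ∈ Finset.range (q0 + 1 + 1 + J), B j := by
      apply Finset.sum_le_sum_of_subset_of_nonneg
      · exact Finset.range_subset_range.2 (Nat.le_add_left _ _)
      · intro j _ _
        exact hB0 j
    refine h1.trans ?_
    rw [Finset.sum_range_add, Finset.sum_range_succ, Finset.sum_range_succ]
    have h2 : ∑ j ∈ Finset.range q0, B j = 0 := by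
      refine Finset.sum_eq_zero fun j hj => ?_
      simp only [B]
      rw [if_pos (Finset.mem_range.1 hj)]
    have h5 : ∑ i ∈ Finset.range J, B (q0 + 1 + 1 + i) =
        C * ∑ i ∈ Finset.range J, ((i : ℝ) + 1) ^ (-(1 + s)) := by
      rw [Finset.mul_sum]
      refine Finset.sum_congr rfl fun i _ => ?_
      simp only [B]
      rw [if_neg (by omega), if_neg (by omega), if_neg (by omega)]
      have h6 : q0 + 1 + 1 + i - q0 - 1 = i + 1 := by omega
      rw [h6]
      push_cast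
      rfl
    rw [h2, hBq, hBq1, h5]
    have h7 := mul_le_mul_of_nonneg_left (zs s hs0 J) hC0
    linarith
  calc ∑ j ∈ Finset.range J,
      mx θ (eb (ENNReal.ofReal (α ^ 2 * P * t)) (Kd α t η M) (TT M j) (J * M) q)
      ≤ ∑ j ∈ Finset.range J, ENNReal.ofReal (B j) := Finset.sum_le_sum fun j _ => hterm j
    _ = ENNReal.ofReal (∑ j ∈ Finset.range J, B j) :=
        (ENNReal.ofReal_sum_of_nonneg fun j _ => hB0 j).symm
    _ ≤ _ := ENNReal.ofReal_le_ofReal hsum

end Pool.Agent.H68.CE
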