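import Pool.Agent.H99.CE.Targets

/-!
# The mean of the low stretches (row STL of the board crx)
-/

set_option autoImplicit false

open MeasureTheory ProbabilityTheory Filter Topology
open scoped ENNReal
open Pool.Agent.H95 Pool.Agent.H95.Cop Pool.Agent.H96.Cop Pool.Agent.H99.CE

namespace Pool.Agent.H68.CE

theorem pf_STL (hHFT : T_HFT) (hNAT : T_NAT) : T_STL := by
  intro K ν _ α σ c δ P k B hα hσ hθ1 hc hδ hk hkB hP hQ
  obtain ⟨hna, htb, -, -, -, -, -, hle⟩ := hNAT α σ c δ k B 1 hα hσ hc hδ hk hkB le_rfl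
  have hθ0 : 0 < th α σ := by
    unfold th
    positivity
  set t := tb α c δ B with ht
  set θ := th α σ with hθ
  have h1 : ∀ x : ℕ → ℝ, FL (fun b => BX (w1 K B) B b) (ENNReal.ofReal t) x ≤
      ENNReal.ofReal (t ^ (1 - θ)) * BX (w1 K B) B 0 x ^ θ := by
    intro x
    unfold FL
    split_ifs with h
    · exact (hHFT t θ _ htb hθ0 hθ1).2.2 h
    · exact bot_le
  have h2 : ∫⁻ x, BX (w1 K B) B 0 x ^ θ ∂(iid ν) ≤
      ENNReal.ofReal P * ENNReal.ofReal (na α σ c δ k B) := by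
    have h3 : ∫⁻ x, BX (w1 K B) B 0 x ^ θ ∂(iid ν) ≤
        ∑' b : ℕ, ∫⁻ x, BX (w1 K B) B b x ^ th α σ ∂(iid ν) :=
      ENNReal.le_tsum (f := fun b : ℕ => ∫⁻ x, BX (w1 K B) B b x ^ th α σ ∂(iid ν)) 0
    refine h3.trans ?_
    unfold QT at hQ
    rwa [ENNReal.div_le_iff (ENNReal.ofReal_pos.2 hna).ne' ENNReal.ofReal_ne_top] at hQ
  calc ∫⁻ x, FL (fun b => BX (w1 K B) B b) (ENNReal.ofReal t) x ∂(iid ν)
      ≤ ∫⁻ x, ENNReal.ofReal (t ^ (1 - θ)) * BX (w1 K B) B 0 x ^ θ ∂(iid ν) :=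
        lintegral_mono h1
    _ = ENNReal.ofReal (t ^ (1 - θ)) * ∫⁻ x, BX (w1 K B) B 0 x ^ θ ∂(iid ν) :=
        lintegral_const_mul' _ _ ENNReal.ofReal_ne_top
    _ ≤ ENNReal.ofReal (t ^ (1 - θ)) *
        (ENNReal.ofReal P * ENNReal.ofReal (na α σ c δ k B)) := by gcongr
    _ = ENNReal.ofReal (t ^ (1 - θ) * (P * na α σ c δ k B)) := by
        rw [← ENNReal.ofReal_mul hP, ← ENNReal.ofReal_mul (by positivity)]
    _ ≤ ENNReal.ofReal (α ^ 2 * P * t) := by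
        apply ENNReal.ofReal_le_ofReal
        have h4 : t ^ (1 - θ) * t ^ θ = t := by
          rw [← Real.rpow_add htb, sub_add_cancel, Real.rpow_one]
        calc t ^ (1 - θ) * (P * na α σ c δ k B) ≤ t ^ (1 - θ) * (P * (α ^ 2 * t ^ θ)) :=
              mul_le_mul_of_nonneg_left (mul_le_mul_of_nonneg_left hle hP) (by positivity)
          _ = α ^ 2 * P * (t ^ (1 - θ) * t ^ θ) := by ring
          _ = α ^ 2 * P * t := by rw [h4]

end Pool.Agent.H68.CE
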